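import Pool.Agent.J4H62.PF.F4
import Pool.Agent.J4H52.PF.T
import Pool.Agent.J4H52.PF.I
import Pool.Agent.J4H99.PF.D2
import Pool.Agent.J4H99.PF.P4
import Pool.Agent.J4H23.PF.R
import Pool.Agent.J4H23.PF.G2
import Pool.Agent.J4H23.PF.G3
import Pool.Agent.J4H23.PF.P1

/-!
`P₄`-Free Contraction (Cograph Contraction), parameterized by the number `k` of contracted edges, is
fixed-parameter tractable: one machine decides all instances in at most `f k * (size + 1) ^ c`
steps, with `f` computable and `c` a constant.

The algorithm.  Pack vertex-disjoint induced paths on four vertices greedily; if more than `8 k`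
vertices are used, the answer is no, since every such path must meet one of the at most `2 k` ends
of contracted edges.  Otherwise the remaining graph is a cograph.  Merge twins until one vertex is
left; for every set of vertices that a current vertex stands for keep its type: the set of the sets
of atomic types (over the constants, the vertices of the packing) of the tuples `(x, y)`, where `x`
ranges over the `2 k`-tuples and, for fixed `x`, `y` ranges over the quadruples of vertices of the
set.  The type of the union of two sets with all or no edges in between is computed from the two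
types.  The type of the set of all remaining vertices decides the question.
-/

namespace Pool.Agent.Results.MP_7f80d9_lc.CographContractionFPT

open Pool.Agent.H603R2
open Pool.Agent.J4H62.PF

/-- `P₄`-Free Contraction is fixed-parameter tractable. -/
theorem result : FPT (HFreeContraction (SimpleGraph.pathGraph 4)) :=
  fpt_of_parts (Pool.Agent.J4H23.PF.t_R Pool.Agent.J4H52.PF.t_I) Pool.Agent.J4H23.PF.t_G1
    Pool.Agent.J4H23.PF.t_G2 (Pool.Agent.J4H23.PF.t_G3 Pool.Agent.J4H23.PF.t_G1)
    (Pool.Agent.J4H99.PF.t_D2 Pool.Agent.J4H52.PF.t_T) Pool.Agent.J4H23.PF.t_P3
    (Pool.Agent.J4H99.PF.t_P4 Pool.Agent.J4H23.PF.t_P1c)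

end Pool.Agent.Results.MP_7f80d9_lc.CographContractionFPT
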